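import Pool.Agent.H46.Unf4

namespace Pool.Agent.Results.MP_6fbbc1_co.NotAllNet

open Pool.Agent.H46.Unf

theorem result : ¬AllNet cell24 ∧ ¬AllNet cell120 ∧ ¬AllNet cell600 := main

end Pool.Agent.Results.MP_6fbbc1_co.NotAllNet
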